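import Pool.Agent.Lib.MP_c7af3c_ag.SHARP.H26.Size
import Pool.Agent.Lib.MP_c7af3c_ag.METC.Base

/-!
# MP_c7af3c_ag, project LINES: definitions and module statements, part 1
Height inequality for lines on which the variation space is small. See Paper.md.
-/

set_option autoImplicit false

namespace Pool.Agent.Lines

open MvPolynomial WithZero Pool.Agent.Gen Pool.Agent.Sharp

/-- the derivations commute -/
def Comm {L : Type} [Field L] {n c : ℕ} {d : Fin c → ℕ} (D : DSys L n c d) : Prop :=
  ∀ m I m' I' f, D.del m I (D.del m' I' f) = D.del m' I' (D.del m I f)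

section defs

variable {L : Type} [Field L] {n c : ℕ} {d : Fin c → ℕ} (D : DSys L n c d)
  (x y : Fin (n + 1) → L)

/-- tuples of forms of degrees `d m` -/
def Hom (d : Fin c → ℕ) (G : Fin c → MvPolynomial (Fin (n + 1)) L) : Prop :=
  ∀ m, (G m).IsHomogeneous (d m)

/-- the tuple vanishes on the line through `x` and `y` -/
def OnLine (G : Fin c → MvPolynomial (Fin (n + 1)) L) : Prop := ∀ m, lineP (G m) x y = 0

/-- a pair of vectors -/
def pr (u v : Fin (n + 1) → L) : Fin 2 × Fin (n + 1) → L :=
  fun q => if q.1 = 0 then u q.2 else v q.2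

/-- the four columns of the line -/
def PP (ab : Fin 2 × Fin 2) : Fin 2 × Fin (n + 1) → L :=
  fun q => if q.1 = ab.1 then (if ab.2 = 0 then x q.2 else y q.2) else 0

/-- the columns `(V_x(G), V_y(G))` -/
noncomputable def VV (G : Fin c → MvPolynomial (Fin (n + 1)) L) : Fin 2 × Fin (n + 1) → L :=
  pr (VT D x G) (VT D y G)

/-- the columns `(W_x(p,q), W_y(p,q))` -/
noncomputable def WW (p q : Fin (n + 1)) : Fin 2 × Fin (n + 1) → L :=
  pr (WT D x p q) (WT D y p q)

/-- the variation space of the point: `x`, the `W_x(p,q)` and the `V_x(G)`, `G` zero on the line -/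
noncomputable def E1 : Submodule L (Fin (n + 1) → L) :=
  Submodule.span L ({x} ∪ {u | ∃ p q, u = WT D x p q} ∪
    {u | ∃ G, Hom d G ∧ OnLine x y G ∧ u = VT D x G})

/-- the variation space of the line: the four columns `PP`, the `WW(p,q)` and the `VV(G)`,
`G` zero on the line -/
noncomputable def SL : Submodule L (Fin 2 × Fin (n + 1) → L) :=
  Submodule.span L (Set.range (PP x y) ∪ {u | ∃ p q, u = WW D x y p q} ∪
    {u | ∃ G, Hom d G ∧ OnLine x y G ∧ u = VV D x y G})

/-- the monomial `X_i^(d m - a) X_j^a` in the component `m` -/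
noncomputable def mon (d : Fin c → ℕ) (i j : Fin (n + 1)) (b : Σ m : Fin c, Fin (d m + 1)) :
    Fin c → MvPolynomial (Fin (n + 1)) L :=
  fun m => if m = b.1 then X i ^ (d b.1 - b.2.1) * X j ^ b.2.1 else 0

/-- the first vector of the frame of the line normalised at `i, j` (it has coordinates 1, 0) -/
noncomputable def fx (i j : Fin (n + 1)) : Fin (n + 1) → L :=
  fun k => plu x y k j / plu x y i j

/-- the second vector of the frame (it has coordinates 0, 1) -/
noncomputable def fy (i j : Fin (n + 1)) : Fin (n + 1) → L :=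
  fun k => plu x y i k / plu x y i j

/-- the coefficients of the restriction of `G` to the line, in the frame at `i, j` -/
noncomputable def co (i j : Fin (n + 1)) (G : Fin c → MvPolynomial (Fin (n + 1)) L)
    (b : Σ m : Fin c, Fin (d m + 1)) : L :=
  (lineP (G b.1) (fx x y i j) (fy x y i j)).coeff b.2.1

end defs

/-- the columns which are not of type `PP` or `VV` of a monomial: `W(p,q)` or
`V(h B)` with a three term form `h` and a monomial `B = X^I` in the component `m` -/
inductive LC (n c : ℕ)
  | W (p q : Fin (n + 1)) : LC n c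
  | H (m : Fin c) (i j k : Fin (n + 1)) (I : Fin (n + 1) →₀ ℕ) : LC n c

/-- the monomial has degree `d m - 1` -/
def LC.Ok {n c : ℕ} (d : Fin c → ℕ) : LC n c → Prop
  | LC.W _ _ => True
  | LC.H m _ _ _ I => I.degree + 1 = d m

/-- the tuple with one component -/
noncomputable def one1 {L : Type} [Field L] {n c : ℕ} (m : Fin c)
    (G : MvPolynomial (Fin (n + 1)) L) : Fin c → MvPolynomial (Fin (n + 1)) L :=
  fun m' => if m' = m then G else 0

/-- the column -/
noncomputable def LC.val {L : Type} [Field L] {n c : ℕ} {d : Fin c → ℕ} (D : DSys L n c d)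
    (x y : Fin (n + 1) → L) : LC n c → (Fin 2 × Fin (n + 1) → L)
  | LC.W p q => WW D x y p q
  | LC.H m i j k I => VV D x y (one1 m (hT x y i j k * monomial I 1))

/-- the exponent of the size of the line -/
def LC.sz {n c : ℕ} : LC n c → ℕ
  | LC.W _ _ => 0
  | LC.H _ _ _ _ _ => 1

/-- the index type of the columns -/
abbrev KI (c q : ℕ) (d : Fin c → ℕ) : Type :=
  ((Fin 2 × Fin 2) ⊕ Fin q) ⊕ (Σ m : Fin c, Fin (d m + 1))

/-- the columns: `PP`, the chosen `LC`, and the monomials in `X_i, X_j`; the rows are those of the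
pairs of vectors and the coefficients of the restriction (frame at `i0, j0`) with index in `β` -/
noncomputable def colM {L : Type} [Field L] {n c : ℕ} {d : Fin c → ℕ} (D : DSys L n c d)
    (x y : Fin (n + 1) → L) (i0 j0 : Fin (n + 1)) {q r : ℕ} (C : Fin q → LC n c)
    (β : Fin r → Σ m : Fin c, Fin (d m + 1)) (i j : Fin (n + 1)) :
    KI c q d → ((Fin 2 × Fin (n + 1)) ⊕ Fin r → L) :=
  Sum.elim (Sum.elim (fun ab => Sum.elim (PP x y ab) 0) fun s => Sum.elim ((C s).val D x y) 0)
    fun b => Sum.elim (VV D x y (mon d i j b)) fun s => co x y i0 j0 (mon d i j b) (β s)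

end Pool.Agent.Lines
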