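import Pool.Agent.Lib.MP_c7af3c_ag.LINES.Base

/-!
# MP_c7af3c_ag, project LINES: module statements, part 1
-/

set_option autoImplicit false

namespace Pool.Agent.Lines

open MvPolynomial WithZero Pool.Agent.Gen Pool.Agent.Sharp

/-- Module SYMDET: the determinant of the symmetric power of a 2 x 2 matrix. -/
def SymdetStatement : Prop := ∀ (L : Type) [Field L] [CharZero L] (e : ℕ) (α β γ ε : L),
  Matrix.det (Matrix.of fun (a b : Fin (e + 1)) =>
    ((Polynomial.C α + Polynomial.X * Polynomial.C β) ^ (e - a.1) *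
      (Polynomial.C γ + Polynomial.X * Polynomial.C ε) ^ a.1).coeff b.1) =
    (α * ε - β * γ) ^ (e * (e + 1) / 2)

/-- Module LIDL: the forms vanishing on a line are spanned by the multiples of three term forms. -/
def LidlStatement : Prop := ∀ (L : Type) [Field L] [CharZero L] (n e : ℕ)
  (x y : Fin (n + 1) → L), LinearIndependent L ![x, y] →
  ∀ G : MvPolynomial (Fin (n + 1)) L, G.IsHomogeneous e → lineP G x y = 0 →
    G ∈ Submodule.span L {P | ∃ i j k, ∃ I : Fin (n + 1) →₀ ℕ, I.degree + 1 = e ∧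
      P = hT x y i j k * monomial I 1}

/-- Module LSUR: the columns span. -/
def LsurStatement : Prop := ∀ (L : Type) [Field L] [CharZero L] (n c : ℕ) (d : Fin c → ℕ)
  (D : DSys L n c d) (x y : Fin (n + 1) → L), LinearIndependent L ![x, y] →
  ∀ i0 j0, plu x y i0 j0 ≠ 0 →
    SL D x y ⊔ Submodule.span L (Set.range fun b => VV D x y (mon d i0 j0 b)) = ⊤

/-- Module LBAS: a choice of columns with nonzero determinant (all square after `e`). -/
def LbasStatement : Prop := LidlStatement → LsurStatement →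
  ∀ (L : Type) [Field L] [CharZero L] (n c : ℕ) (d : Fin c → ℕ)
  (D : DSys L n c d) (x y : Fin (n + 1) → L), LinearIndependent L ![x, y] →
  ∀ i0 j0, plu x y i0 j0 ≠ 0 → ∀ q, Module.finrank L (SL D x y) = 4 + q →
    ∃ (r : ℕ) (C : Fin q → LC n c) (β : Fin r → Σ m : Fin c, Fin (d m + 1)),
      r + 2 * n = c + ∑ m, d m + q + 2 ∧ (∀ s, (C s).Ok d) ∧
      (∀ G, Hom d G → OnLine x y G → VV D x y G ∈ Submodule.span L
        (Set.range (PP x y) ∪ Set.range fun s => (C s).val D x y)) ∧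
      LinearIndependent L (colM D x y i0 j0 C β i0 j0)

/-- Module LCMP: change of the pair of coordinates. -/
def LcmpStatement : Prop := SymdetStatement →
  ∀ (L : Type) [Field L] [CharZero L] (n c : ℕ) (d : Fin c → ℕ)
  (D : DSys L n c d) (x y : Fin (n + 1) → L), LinearIndependent L ![x, y] →
  ∀ i0 j0, plu x y i0 j0 ≠ 0 → ∀ (q r : ℕ) (C : Fin q → LC n c)
  (β : Fin r → Σ m : Fin c, Fin (d m + 1)),
  (∀ G, Hom d G → OnLine x y G → VV D x y G ∈ Submodule.span L
        (Set.range (PP x y) ∪ Set.range fun s => (C s).val D x y)) →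
  ∀ (e : KI c q d ≃ (Fin 2 × Fin (n + 1)) ⊕ Fin r) (i j : Fin (n + 1)),
    Matrix.det (Matrix.of fun k k' => colM D x y i0 j0 C β i j k' (e k)) =
      (plu x y i j / plu x y i0 j0) ^ (∑ m, d m * (d m + 1) / 2) *
        Matrix.det (Matrix.of fun k k' => colM D x y i0 j0 C β i0 j0 k' (e k))

/-- Module LLOC: the size of the determinant at a place. -/
def LlocStatement : Prop :=
  ∀ (L : Type) [Field L] [CharZero L] (n c : ℕ) (d : Fin c → ℕ)
  (D : DSys L n c d) (x y : Fin (n + 1) → L), LinearIndependent L ![x, y] →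
  ∀ i0 j0, plu x y i0 j0 ≠ 0 → ∀ (q r : ℕ) (C : Fin q → LC n c), (∀ s, (C s).Ok d) →
  ∀ (β : Fin r → Σ m : Fin c, Fin (d m + 1)) (M : ℕ), (∀ m, d m ≤ M) →
  ∀ (e : KI c q d ≃ (Fin 2 × Fin (n + 1)) ⊕ Fin r) (i j : Fin (n + 1))
    (v : Valuation L ℤᵐ⁰) (B : ℤᵐ⁰), 1 ≤ B →
  (∀ m I, I.degree = d m → ∀ f, v f ≤ 1 → v (D.del m I f) ≤ B) →
  (∀ m I, v (coeff I (D.F m)) ≤ B) →
  (∀ i' j', v (plu x y i' j') ≤ v (plu x y i j)) →
    v (Matrix.det (Matrix.of fun k k' => colM D x y i0 j0 C β i j k' (e k))) ≤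
      B ^ (2 * (2 * n + 2 + r)) * v (plu x y i j) ^ (n + 1 + ∑ s, (C s).sz) *
        (v (plu x y i j) / v (plu x y i0 j0)) ^ (r * M)

/-- Module HBL: the height inequality for lines. -/
def HblStatement : Prop := LbasStatement → LcmpStatement → LlocStatement →
  LidlStatement → LsurStatement → SymdetStatement →
  ∀ (L : Type) [Field L] [CharZero L] (n c : ℕ) (d : Fin c → ℕ)
  (D : DSys L n c d) (x y : Fin (n + 1) → L), LinearIndependent L ![x, y] →
  ∀ (q M : ℕ), Module.finrank L (SL D x y) = 4 + q → (∀ m, d m ≤ M) →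
  c + ∑ m, d m + q ≤ 2 * n + 1 → n + 2 + q + 3 * M ≤ ∑ m, d m * (d m + 1) / 2 →
  ∀ (S : PlaceSys L), S.IsProd → ∀ B : S.V → ℕ, BD S D B →
    hL S x y ≤ (2 * (2 * n + 5)) * tot S B

/-- Module LVAR: the variation space of a line through a point with small variation. -/
def LvarStatement : Prop := ∀ (L : Type) [Field L] [CharZero L] (n c : ℕ) (d : Fin c → ℕ)
  (D : DSys L n c d), Comm D → ∀ (x y : Fin (n + 1) → L), LinearIndependent L ![x, y] →
  (∀ m, eval x (D.F m) = 0) → ∀ κ : ℕ, Module.finrank L (E1 D x y) ≤ κ + 1 →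
  2 * κ + 2 + c ≤ n → Module.finrank L (SL D x y) ≤ 4 + κ

/-- Module LVARX: the variation space of a line inside the complete intersection. -/
def LvarxStatement : Prop := ∀ (L : Type) [Field L] [CharZero L] (n c : ℕ) (d : Fin c → ℕ)
  (D : DSys L n c d) (x y : Fin (n + 1) → L), LinearIndependent L ![x, y] →
  OnLine x y D.F → Module.finrank L (SL D x y) + c + ∑ m, d m ≤ 2 * n + 2

/-- Module FOUR: the four columns are independent. -/
def FourStatement : Prop := ∀ (L : Type) [Field L] [CharZero L] (n c : ℕ) (d : Fin c → ℕ)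
  (D : DSys L n c d) (x y : Fin (n + 1) → L), LinearIndependent L ![x, y] →
  4 ≤ Module.finrank L (SL D x y)

/-- Module NUM. -/
def NumStatement : Prop := ∀ (n c e q : ℕ) (d : Fin c → ℕ), (∀ m, 1 ≤ d m) → 1 ≤ c →
  2 * n + 1 ≤ c + ∑ m, d m + e → 2 * e + 2 + c ≤ n → 3 + c ≤ n → q ≤ e →
  c + ∑ m, d m + q ≤ 2 * n + 1 →
  ∃ M : ℕ, (∀ m, d m ≤ M) ∧ n + 2 + q + 3 * M ≤ ∑ m, d m * (d m + 1) / 2

end Pool.Agent.Lines
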